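import Pool.Agent.Lib.MP_8bee83_an.Defs

set_option autoImplicit false

open Filter Topology

namespace Pool.Agent.Lib.MP_8bee83_an

variable {G : Type*} [DecidableEq G]

/-- Points where two elements of `F` have the same preimage. -/
def Bad {d : ℕ} (F : Finset G) (σ : G → Equiv.Perm (Fin d)) (l : Fin d) : Prop :=
  ∃ f ∈ F, ∃ f' ∈ F, f ≠ f' ∧ (σ f).symm l = (σ f').symm l

/-- Points covered by `σ(F) S`. -/
def Cov {d : ℕ} (F : Finset G) (σ : G → Equiv.Perm (Fin d)) (S : Finset (Fin d)) (l : Fin d) :
    Prop := ∃ f ∈ F, ∃ s ∈ S, σ f s = l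

open Classical in
/-- A small set `S` such that `σ(F) S` is almost everything. -/
lemma exists_small {d : ℕ} (F : Finset G) (σ : G → Equiv.Perm (Fin d)) {β : ℝ} (hβ : 0 < β)
    (hF : 1 ≤ β ^ 2 * F.card) :
    ∃ S : Finset (Fin d), (S.card : ℝ) ≤ β * d ∧
      ((Finset.univ.filter (fun l => ¬ Cov F σ S l)).card : ℝ) ≤
        β * d + ((Finset.univ.filter (fun l => Bad F σ l)).card : ℝ) := by
  have hFpos : (0 : ℝ) < F.card := by
    by_contra h
    have : (F.card : ℝ) = 0 := le_antisymm (not_lt.mp h) (by positivity)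
    rw [this, mul_zero] at hF
    linarith
  let A : Fin d → Finset (Fin d) := fun s => F.image (fun f => σ f s)
  let cv : Finset (Fin d) → Finset (Fin d) := fun S => S.biUnion A
  have hcv : ∀ S l, l ∈ cv S ↔ Cov F σ S l := by
    intro S l
    simp only [cv, A, Finset.mem_biUnion, Finset.mem_image, Cov]
    constructor
    · rintro ⟨s, hs, f, hf, h⟩; exact ⟨f, hf, s, hs, h⟩
    · rintro ⟨f, hf, s, hs, h⟩; exact ⟨s, hs, f, hf, h⟩
  obtain ⟨S, hS, hmax⟩ := Finset.exists_max_image
    (Finset.univ.filter (fun S : Finset (Fin d) => β * F.card * S.card ≤ (cv S).card))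
    Finset.card ⟨∅, by simp [cv]⟩
  rw [Finset.mem_filter] at hS
  have hS1 := hS.2
  have hcard : ((cv S).card : ℝ) ≤ d := by
    have := Finset.card_le_univ (cv S)
    rw [Fintype.card_fin] at this
    exact_mod_cast this
  refine ⟨S, ?_, ?_⟩
  · have h1 : β * F.card * S.card ≤ d := hS1.trans hcard
    have h2 : (S.card : ℝ) ≤ (β ^ 2 * F.card) * S.card :=
      le_mul_of_one_le_left (by positivity) hF
    calc (S.card : ℝ) ≤ (β ^ 2 * F.card) * S.card := h2
      _ = β * (β * F.card * S.card) := by ring
      _ ≤ β * d := mul_le_mul_of_nonneg_left h1 hβ.le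
  · -- each orbit piece meets the uncovered set in few points
    set U := Finset.univ.filter (fun l => ¬ Cov F σ S l) with hU
    have hstep : ∀ s : Fin d, ((A s ∩ U).card : ℝ) ≤ β * F.card := by
      intro s
      by_cases hs : s ∈ S
      · have : A s ∩ U = ∅ := by
          rw [Finset.eq_empty_iff_forall_notMem]
          intro l hl
          rw [Finset.mem_inter, hU, Finset.mem_filter] at hl
          apply hl.2.2
          rw [← hcv]
          exact Finset.mem_biUnion.mpr ⟨s, hs, hl.1⟩
        rw [this]
        simp only [Finset.card_empty, Nat.cast_zero]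
        positivity
      · have hnot : ¬ (β * F.card * (insert s S).card ≤ ((cv (insert s S)).card : ℝ)) := by
          intro h
          have := hmax (insert s S) (by rw [Finset.mem_filter]; exact ⟨Finset.mem_univ _, h⟩)
          rw [Finset.card_insert_of_notMem hs] at this
          omega
        rw [not_le, Finset.card_insert_of_notMem hs] at hnot
        have hdisj : Disjoint (cv S) (A s ∩ U) := by
          rw [Finset.disjoint_left]
          intro l hl hl'
          rw [Finset.mem_inter, hU, Finset.mem_filter] at hl'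
          exact hl'.2.2 ((hcv S l).mp hl)
        have hsub : cv S ∪ (A s ∩ U) ⊆ cv (insert s S) := by
          intro l hl
          rw [Finset.mem_union] at hl
          rcases hl with hl | hl
          · obtain ⟨s', hs', h⟩ := Finset.mem_biUnion.mp hl
            exact Finset.mem_biUnion.mpr ⟨s', Finset.mem_insert_of_mem hs', h⟩
          · exact Finset.mem_biUnion.mpr ⟨s, Finset.mem_insert_self _ _, (Finset.mem_inter.mp hl).1⟩
        have hc := Finset.card_le_card hsub
        rw [Finset.card_union_of_disjoint hdisj] at hc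
        have hc' : ((cv S).card : ℝ) + ((A s ∩ U).card : ℝ) ≤ ((cv (insert s S)).card : ℝ) := by
          exact_mod_cast hc
        push_cast at hnot
        nlinarith
    -- double counting
    set Gd := U.filter (fun l => ¬ Bad F σ l) with hGd
    have hcount : (F.card : ℝ) * Gd.card ≤ ∑ s : Fin d, ((A s ∩ U).card : ℝ) := by
      have h1 : ∑ s : Fin d, ((A s ∩ U).card : ℝ) =
          ∑ l ∈ U, ((Finset.univ.filter (fun s => l ∈ A s)).card : ℝ) := by
        have : ∀ s, ((A s ∩ U).card : ℝ) = ∑ l ∈ U, if l ∈ A s then (1 : ℝ) else 0 := by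
          intro s
          rw [Finset.sum_ite_mem, Finset.inter_comm]
          simp
        simp only [this]
        rw [Finset.sum_comm]
        apply Finset.sum_congr rfl
        intro l _
        simp
      rw [h1]
      have h2 : ∑ l ∈ Gd, (F.card : ℝ) ≤
          ∑ l ∈ U, ((Finset.univ.filter (fun s => l ∈ A s)).card : ℝ) := by
        calc ∑ l ∈ Gd, (F.card : ℝ) ≤
            ∑ l ∈ Gd, ((Finset.univ.filter (fun s => l ∈ A s)).card : ℝ) := by
              apply Finset.sum_le_sum
              intro l hl
              rw [hGd, Finset.mem_filter] at hl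
              have hinj : Set.InjOn (fun f => (σ f).symm l) F := by
                intro f hf f' hf' h
                by_contra hne
                exact hl.2 ⟨f, hf, f', hf', hne, h⟩
              have hsub : F.image (fun f => (σ f).symm l) ⊆
                  Finset.univ.filter (fun s => l ∈ A s) := by
                intro s hs
                obtain ⟨f, hf, rfl⟩ := Finset.mem_image.mp hs
                rw [Finset.mem_filter]
                refine ⟨Finset.mem_univ _, Finset.mem_image.mpr ⟨f, hf, ?_⟩⟩
                simp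
              have := Finset.card_le_card hsub
              rw [Finset.card_image_of_injOn hinj] at this
              exact_mod_cast this
          _ ≤ _ := Finset.sum_le_sum_of_subset_of_nonneg (Finset.filter_subset _ _)
              (fun _ _ _ => by positivity)
      rw [Finset.sum_const, nsmul_eq_mul, mul_comm] at h2
      exact h2
    have hsum : ∑ s : Fin d, ((A s ∩ U).card : ℝ) ≤ d * (β * F.card) := by
      calc ∑ s : Fin d, ((A s ∩ U).card : ℝ) ≤ ∑ _s : Fin d, β * F.card :=
            Finset.sum_le_sum (fun s _ => hstep s)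
        _ = d * (β * F.card) := by simp
    have hGdle : (Gd.card : ℝ) ≤ β * d := by
      have h3 : (F.card : ℝ) * Gd.card ≤ F.card * (β * d) := by
        calc (F.card : ℝ) * Gd.card ≤ d * (β * F.card) := hcount.trans hsum
          _ = F.card * (β * d) := by ring
      exact le_of_mul_le_mul_left h3 hFpos
    have hUle : (U.card : ℝ) ≤ Gd.card + ((Finset.univ.filter (fun l => Bad F σ l)).card : ℝ) := by
      have h4 : U ⊆ Gd ∪ Finset.univ.filter (fun l => Bad F σ l) := by
        intro l hl
        by_cases hb : Bad F σ l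
        · exact Finset.mem_union_right _ (Finset.mem_filter.mpr ⟨Finset.mem_univ _, hb⟩)
        · exact Finset.mem_union_left _ (Finset.mem_filter.mpr ⟨hl, hb⟩)
      have := (Finset.card_le_card h4).trans (Finset.card_union_le _ _)
      exact_mod_cast this
    linarith

omit [DecidableEq G] in
open Classical in
/-- In a sofic approximation bad points are rare. -/
lemma bad_rare [Group G] (Sa : SoficApprox G) (F : Finset G) {β : ℝ} (hβ : 0 < β) :
    ∀ᶠ i in atTop, ((Finset.univ.filter (fun l => Bad F (Sa.σ i) l)).card : ℝ) ≤ β * Sa.d i := by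
  -- total share of coincidences tends to zero
  have h1 : ∀ f f' : G, f ≠ f' → Tendsto (fun i =>
      ((Finset.univ.filter (fun k => Sa.σ i f k = Sa.σ i f' k)).card : ℝ) / Sa.d i)
        atTop (𝓝 0) := by
    intro f f' hff
    have h2 := (Sa.free f f' hff).const_sub 1
    rw [sub_self] at h2
    apply h2.congr'
    filter_upwards [Sa.tendsto_d.eventually_gt_atTop 0] with i hi
    have hd : (0 : ℝ) < Sa.d i := by exact_mod_cast hi
    have h3 : (Nat.card {k // Sa.σ i f k ≠ Sa.σ i f' k}) =
        (Finset.univ.filter (fun k => ¬ Sa.σ i f k = Sa.σ i f' k)).card := by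
      rw [Nat.card_eq_fintype_card, Fintype.card_subtype]
    have h4 := Finset.card_filter_add_card_filter_not (s := (Finset.univ : Finset (Fin (Sa.d i))))
      (fun k => Sa.σ i f k = Sa.σ i f' k)
    rw [Finset.card_univ, Fintype.card_fin] at h4
    rw [h3, eq_div_iff hd.ne', sub_mul, div_mul_cancel₀ _ hd.ne', one_mul]
    have h5 : ((Finset.univ.filter (fun k => Sa.σ i f k = Sa.σ i f' k)).card : ℝ) +
      ((Finset.univ.filter (fun k => ¬ Sa.σ i f k = Sa.σ i f' k)).card : ℝ) = Sa.d i := by
      exact_mod_cast h4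
    linarith
  have h2 : Tendsto (fun i => ∑ p ∈ (F ×ˢ F).filter (fun p => p.1 ≠ p.2),
      ((Finset.univ.filter (fun k => Sa.σ i p.1 k = Sa.σ i p.2 k)).card : ℝ) / Sa.d i)
        atTop (𝓝 0) := by
    have := tendsto_finsetSum ((F ×ˢ F).filter (fun p => p.1 ≠ p.2))
      (fun p hp => h1 p.1 p.2 (Finset.mem_filter.mp hp).2)
    simpa using this
  filter_upwards [h2.eventually_lt_const hβ, Sa.tendsto_d.eventually_gt_atTop 0] with i hi hdi
  have hd : (0 : ℝ) < Sa.d i := by exact_mod_cast hdi
  rw [← Finset.sum_div, div_lt_iff₀ hd] at hi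
  refine le_trans ?_ hi.le
  have hsub : Finset.univ.filter (fun l => Bad F (Sa.σ i) l) ⊆
      ((F ×ˢ F).filter (fun p => p.1 ≠ p.2)).biUnion (fun p =>
        (Finset.univ.filter (fun k => Sa.σ i p.1 k = Sa.σ i p.2 k)).image (Sa.σ i p.1)) := by
    intro l hl
    rw [Finset.mem_filter] at hl
    obtain ⟨-, f, hf, f', hf', hne, h⟩ := hl
    rw [Finset.mem_biUnion]
    refine ⟨(f, f'), Finset.mem_filter.mpr ⟨Finset.mk_mem_product hf hf', hne⟩, ?_⟩
    rw [Finset.mem_image]
    refine ⟨(Sa.σ i f).symm l, Finset.mem_filter.mpr ⟨Finset.mem_univ _, ?_⟩, by simp⟩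
    simp only
    rw [Equiv.apply_symm_apply, h, Equiv.apply_symm_apply]
  calc ((Finset.univ.filter (fun l => Bad F (Sa.σ i) l)).card : ℝ) ≤
      ((((F ×ˢ F).filter (fun p => p.1 ≠ p.2)).biUnion (fun p =>
        (Finset.univ.filter (fun k => Sa.σ i p.1 k = Sa.σ i p.2 k)).image (Sa.σ i p.1))).card : ℝ) := by
          exact_mod_cast Finset.card_le_card hsub
    _ ≤ ((∑ p ∈ (F ×ˢ F).filter (fun p => p.1 ≠ p.2),
        ((Finset.univ.filter (fun k => Sa.σ i p.1 k = Sa.σ i p.2 k)).image
          (Sa.σ i p.1)).card : ℕ) : ℝ) := by exact_mod_cast Finset.card_biUnion_le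
    _ ≤ ∑ p ∈ (F ×ˢ F).filter (fun p => p.1 ≠ p.2),
        ((Finset.univ.filter (fun k => Sa.σ i p.1 k = Sa.σ i p.2 k)).card : ℝ) := by
          rw [Nat.cast_sum]
          apply Finset.sum_le_sum
          intro p _
          exact_mod_cast Finset.card_image_le

end Pool.Agent.Lib.MP_8bee83_an
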