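import Pool.Agent.Lib.MP_8bee83_an.Dim

set_option autoImplicit false

open Filter Topology

namespace Pool.Agent.Lib.MP_8bee83_an

open Classical in
/-- The bump function of an open set. -/
noncomputable def bump {X : Type*} [MetricSpace X] (U : Set X) (x : X) : ℝ :=
  if (Uᶜ).Nonempty then Metric.infDist x Uᶜ else 1

lemma bump_cont {X : Type*} [MetricSpace X] (U : Set X) : Continuous (bump U) := by
  unfold bump
  split_ifs
  · exact Metric.continuous_infDist_pt _
  · exact continuous_const

lemma bump_ne_zero {X : Type*} [MetricSpace X] {U : Set X} (hU : IsOpen U) (x : X) :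
    bump U x ≠ 0 ↔ x ∈ U := by
  unfold bump
  split_ifs with h
  · rw [ne_eq, ← hU.isClosed_compl.mem_iff_infDist_zero h, Set.mem_compl_iff, not_not]
  · rw [Set.not_nonempty_iff_eq_empty, Set.compl_empty_iff] at h
    simp [h]

/-- Coordinates with few nonzero entries separating points at scale `κ` for finitely many
group elements. -/
lemma exists_coord {X : Type*} [MetricSpace X] [CompactSpace X] {G : Type*} [Group G]
    [MulAction G X] [ContinuousConstSMul G X] {n : ℕ} (hX : CovDimLE X n) (F : Finset G)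
    {κ : ℝ} (hκ : 0 < κ) :
    ∃ (N : ℕ) (t : Fin N → X → ℝ), (∀ v, Continuous (t v)) ∧
      (∀ x, (Finset.univ.filter (fun v => t v x ≠ 0)).card ≤ n + 1) ∧
      ∀ x y, (∀ v, t v x = t v y) → ∀ f ∈ F, dist (f • x) (f • y) < κ := by
  classical
  -- a uniform modulus
  have hmod : ∃ η > 0, ∀ f ∈ F, ∀ x y : X, dist x y < η → dist (f • x) (f • y) < κ := by
    have h1 : ∀ f : G, ∃ η > 0, ∀ x y : X, dist x y < η → dist (f • x) (f • y) < κ := by
      intro f
      have huc : UniformContinuous (fun x : X => f • x) :=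
        CompactSpace.uniformContinuous_of_continuous (continuous_const_smul f)
      obtain ⟨η, hη, h⟩ := Metric.uniformContinuous_iff.mp huc κ hκ
      exact ⟨η, hη, fun x y hxy => h hxy⟩
    choose η hη hη2 using h1
    by_cases hF : F.Nonempty
    · refine ⟨F.inf' hF η, ?_, ?_⟩
      · rw [gt_iff_lt, Finset.lt_inf'_iff]
        exact fun f _ => hη f
      · intro f hf x y hxy
        exact hη2 f x y (hxy.trans_le (Finset.inf'_le _ hf))
    · rw [Finset.not_nonempty_iff_eq_empty] at hF
      exact ⟨1, one_pos, by simp [hF]⟩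
  obtain ⟨η, hη, hmod⟩ := hmod
  -- a finite cover by small balls
  obtain ⟨s, -, hs⟩ := finite_cover_balls_of_compact (isCompact_univ : IsCompact (Set.univ : Set X))
    (show 0 < η / 2 by positivity)
  obtain ⟨hsf, hsc⟩ := hs
  obtain ⟨V, hVf, hVo, hVc, hVr, hVm⟩ := hX ((fun x => Metric.ball x (η / 2)) '' s)
    (hsf.image _) (by rintro A ⟨x, -, rfl⟩; exact Metric.isOpen_ball) (by
      rw [Set.sUnion_image]
      exact Set.eq_univ_of_univ_subset hsc)
  -- enumerate
  have := hVf.fintype
  let e : Fin (Fintype.card V) ≃ V := (Fintype.equivFin V).symm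
  refine ⟨Fintype.card V, fun v x => bump (e v).1 x, fun v => bump_cont _, ?_, ?_⟩
  · intro x
    have h1 : ((Finset.univ.filter (fun v => bump (e v).1 x ≠ 0)).card : ℕ∞) ≤ n + 1 := by
      rw [← Set.encard_coe_eq_coe_finsetCard]
      refine le_trans ?_ (hVm x)
      have hinj : Function.Injective (fun v : Fin (Fintype.card V) => (e v).1) :=
        Subtype.val_injective.comp e.injective
      rw [← hinj.encard_image]
      apply Set.encard_le_encard
      rintro B ⟨v, hv, rfl⟩
      rw [Finset.coe_filter] at hv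
      exact ⟨(e v).2, (bump_ne_zero (hVo _ (e v).2) x).mp hv.2⟩
    exact_mod_cast h1
  · intro x y hxy f hf
    have hx : x ∈ ⋃₀ V := by rw [hVc]; trivial
    obtain ⟨B, hB, hxB⟩ := hx
    have h1 := hxy (e.symm ⟨B, hB⟩)
    simp only [Equiv.apply_symm_apply] at h1
    have hyB : y ∈ B := by
      rw [← bump_ne_zero (hVo _ hB) y, ← h1, bump_ne_zero (hVo _ hB) x]
      exact hxB
    obtain ⟨A, ⟨z, -, rfl⟩, hBA⟩ := hVr B hB
    apply hmod f hf
    have h2 := hBA hxB
    have h3 := hBA hyB
    rw [Metric.mem_ball] at h2 h3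
    calc dist x y ≤ dist x z + dist y z := dist_triangle_right _ _ _
      _ < η := by linarith

end Pool.Agent.Lib.MP_8bee83_an
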