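import Mathlib

set_option autoImplicit false

open Filter Topology

namespace Pool.Agent.Lib.MP_8bee83_an

/-- The Lebesgue covering dimension of `P` is at most `n`: every finite open cover has a finite
open refinement such that each point lies in at most `n + 1` members of the refinement. -/
def CovDimLE (P : Type*) [TopologicalSpace P] (n : ℕ) : Prop :=
  ∀ W : Set (Set P), W.Finite → (∀ A ∈ W, IsOpen A) → ⋃₀ W = Set.univ →
    ∃ V : Set (Set P), V.Finite ∧ (∀ B ∈ V, IsOpen B) ∧ ⋃₀ V = Set.univ ∧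
      (∀ B ∈ V, ∃ A ∈ W, B ⊆ A) ∧ ∀ x : P, {B | B ∈ V ∧ x ∈ B}.encard ≤ n + 1

open Classical in
/-- Lebesgue covering dimension; the empty space has dimension `-∞`, and the value is `∞` if there
is no finite bound. -/
noncomputable def covDim (P : Type*) [TopologicalSpace P] : EReal :=
  if IsEmpty P then ⊥ else ⨅ n ∈ {n : ℕ | CovDimLE P n}, ((n : ℕ) : EReal)

/-- `Widim_ε (Y, dist)`: the least dimension of a compact metrizable space `P` such that there is
an `ε`-embedding `Y → P`. -/
noncomputable def widim (Y : Type*) [MetricSpace Y] (ε : ℝ) : EReal :=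
  sInf {a : EReal | ∃ (P : Type) (_ : TopologicalSpace P) (_ : CompactSpace P)
    (_ : TopologicalSpace.MetrizableSpace P) (f : Y → P),
    Continuous f ∧ (∀ y y', f y = f y' → dist y y' < ε) ∧ a = covDim P}

/-- A sofic approximation sequence of a group. -/
structure SoficApprox (G : Type*) [Group G] where
  /-- the sizes -/
  d : ℕ → ℕ
  /-- the maps to the symmetric groups -/
  σ : (i : ℕ) → G → Equiv.Perm (Fin (d i))
  tendsto_d : Tendsto d atTop atTop
  mul : ∀ s t : G, Tendsto
    (fun i => (Nat.card {k // σ i (s * t) k = σ i s (σ i t k)} : ℝ) / d i) atTop (𝓝 1)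
  free : ∀ s t : G, s ≠ t → Tendsto
    (fun i => (Nat.card {k // σ i s k ≠ σ i t k} : ℝ) / d i) atTop (𝓝 1)

variable {X : Type*} [MetricSpace X] {G : Type*} [Group G] [MulAction G X]

/-- The metric `ρ₂` on `X ^ d`. -/
noncomputable def rho2 {d : ℕ} (x y : Fin d → X) : ℝ :=
  Real.sqrt ((1 / (d : ℝ)) * ∑ l, dist (x l) (y l) ^ 2)

/-- The set `Map (ρ, F, δ, σ)` of `(F, δ)`-approximately equivariant maps `[d] → X`. -/
def MapSet (X : Type*) [MetricSpace X] {G : Type*} [Group G] [MulAction G X] (F : Finset G)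
    (δ : ℝ) {d : ℕ} (σ : G → Equiv.Perm (Fin d)) : Set (Fin d → X) :=
  {φ | ∀ s ∈ F, rho2 (fun l => φ (σ s l)) (fun l => s • φ l) ≤ δ}

/-- Sofic mean dimension. The metric on `MapSet` is the restriction of the maximum metric on
`Fin d → X`. -/
noncomputable def mdim (S : SoficApprox G) (X : Type*) [MetricSpace X] [MulAction G X] : EReal :=
  ⨆ (ε : ℝ) (_ : 0 < ε), ⨅ (F : Finset G) (δ : ℝ) (_ : 0 < δ),
    limsup (fun i => widim (MapSet X F δ (S.σ i)) ε / ((S.d i : ℕ) : EReal)) atTop

end Pool.Agent.Lib.MP_8bee83_an
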