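import Pool.Agent.Lib.MP_8bee83_an.Defs

set_option autoImplicit false

open Filter Topology

namespace Pool.Agent.Lib.MP_8bee83_an

/-- Offsets of the colours. -/
noncomputable def off (D : ℕ) (j : Fin (D + 1)) : ℝ := ((j : ℕ) + 1 : ℝ) / (D + 2)

lemma off_pos (D : ℕ) (j : Fin (D + 1)) : 0 < off D j := by unfold off; positivity

lemma off_lt_one (D : ℕ) (j : Fin (D + 1)) : off D j < 1 := by
  unfold off
  rw [div_lt_one (by positivity)]
  have := j.2
  have : ((j : ℕ) : ℝ) < D + 1 := by exact_mod_cast this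
  linarith

lemma off_inj (D : ℕ) {j j' : Fin (D + 1)} (h : off D j = off D j') : j = j' := by
  unfold off at h
  have h2 : ((D : ℝ) + 2) ≠ 0 := by positivity
  rw [div_left_inj' h2] at h
  have : ((j : ℕ) : ℝ) = ((j' : ℕ) : ℝ) := by linarith
  exact Fin.ext (by exact_mod_cast this)

/-- The colour `j` misses the real number `x` (at scale `r`). -/
def Miss (D : ℕ) (r : ℝ) (j : Fin (D + 1)) (x : ℝ) : Prop := ∃ k : ℤ, x / r - off D j = k

lemma miss_zero (D : ℕ) (r : ℝ) (j : Fin (D + 1)) : ¬ Miss D r j 0 := by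
  rintro ⟨k, hk⟩
  rw [zero_div, zero_sub] at hk
  have h1 := off_pos D j
  have h2 := off_lt_one D j
  have h3 : (k : ℝ) < 0 := by linarith
  have h4 : (-1 : ℝ) < k := by linarith
  have h5 : k < 0 := by exact_mod_cast h3
  have h6 : -1 < k := by exact_mod_cast h4
  omega

lemma miss_unique (D : ℕ) (r : ℝ) {j j' : Fin (D + 1)} {x : ℝ} (h : Miss D r j x)
    (h' : Miss D r j' x) : j = j' := by
  obtain ⟨k, hk⟩ := h
  obtain ⟨k', hk'⟩ := h'
  have h1 := off_pos D j
  have h2 := off_lt_one D j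
  have h1' := off_pos D j'
  have h2' := off_lt_one D j'
  have h3 : off D j - off D j' = ((k' - k : ℤ) : ℝ) := by push_cast; linarith
  have h4 : ((k' - k : ℤ) : ℝ) < 1 := by linarith
  have h5 : (-1 : ℝ) < ((k' - k : ℤ) : ℝ) := by linarith
  have h6 : k' - k < 1 := by exact_mod_cast h4
  have h7 : -1 < k' - k := by exact_mod_cast h5
  have h8 : k' - k = 0 := by omega
  apply off_inj D
  rw [h8] at h3
  push_cast at h3
  linarith

variable {ι : Type*} [Fintype ι]

/-- The cells. -/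
def Cell (D : ℕ) (r : ℝ) (j : Fin (D + 1)) (k : ι → ℤ) : Set (ι → ℝ) :=
  {v | ∀ i, (k i : ℝ) < v i / r - off D j ∧ v i / r - off D j < k i + 1}

lemma cell_open (D : ℕ) (r : ℝ) (j : Fin (D + 1)) (k : ι → ℤ) : IsOpen (Cell D r j k) := by
  have : Cell D r j k = ⋂ i, {v : ι → ℝ | (k i : ℝ) < v i / r - off D j ∧
      v i / r - off D j < k i + 1} := by
    ext v; simp [Cell]
  rw [this]
  apply isOpen_iInter_of_finite
  intro i
  have hc : Continuous fun v : ι → ℝ => v i / r - off D j := by fun_prop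
  exact (isOpen_lt continuous_const hc).inter (isOpen_lt hc continuous_const)

omit [Fintype ι] in
lemma cell_unique (D : ℕ) (r : ℝ) (j : Fin (D + 1)) {k k' : ι → ℤ} {v : ι → ℝ}
    (h : v ∈ Cell D r j k) (h' : v ∈ Cell D r j k') : k = k' := by
  funext i
  obtain ⟨h1, h2⟩ := h i
  obtain ⟨h3, h4⟩ := h' i
  have e1 : (k i : ℝ) < k' i + 1 := by linarith
  have e2 : (k' i : ℝ) < k i + 1 := by linarith
  have e3 : k i < k' i + 1 := by exact_mod_cast e1
  have e4 : k' i < k i + 1 := by exact_mod_cast e2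
  omega

lemma cell_diam (D : ℕ) {r : ℝ} (hr : 0 < r) (j : Fin (D + 1)) {k : ι → ℤ} {v w : ι → ℝ}
    (h : v ∈ Cell D r j k) (h' : w ∈ Cell D r j k) : dist v w ≤ r := by
  rw [dist_pi_le_iff hr.le]
  intro i
  obtain ⟨h1, h2⟩ := h i
  obtain ⟨h3, h4⟩ := h' i
  rw [Real.dist_eq, abs_le]
  have e1 : v i / r - w i / r < 1 := by linarith
  have e2 : w i / r - v i / r < 1 := by linarith
  rw [← sub_div, div_lt_one hr] at e1 e2
  constructor <;> linarith

/-- A vector with at most `D` nonzero coordinates lies in a cell of some colour. -/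
lemma exists_cell (D : ℕ) (r : ℝ) (v : ι → ℝ)
    (hv : (Finset.univ.filter (fun i => v i ≠ 0)).card ≤ D) :
    ∃ j k, v ∈ Cell D r j k := by
  classical
  -- colours missed by some coordinate
  have h1 : ∃ j : Fin (D + 1), ∀ i, ¬ Miss D r j (v i) := by
    by_contra hcon
    push Not at hcon
    choose c hc using hcon
    have hmaps : ∀ j ∈ (Finset.univ : Finset (Fin (D + 1))),
        c j ∈ Finset.univ.filter (fun i => v i ≠ 0) := by
      intro j _
      rw [Finset.mem_filter]
      refine ⟨Finset.mem_univ _, fun h0 => ?_⟩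
      have := hc j
      rw [h0] at this
      exact miss_zero D r j this
    have hinj : Set.InjOn c (Finset.univ : Finset (Fin (D + 1))) := by
      intro j _ j' _ h
      have h1 := hc j
      have h2 := hc j'
      rw [← h] at h2
      exact miss_unique D r h1 h2
    have := Finset.card_le_card_of_injOn c hmaps hinj
    rw [Finset.card_univ, Fintype.card_fin] at this
    omega
  obtain ⟨j, hj⟩ := h1
  refine ⟨j, fun i => ⌊v i / r - off D j⌋, fun i => ⟨?_, Int.lt_floor_add_one _⟩⟩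
  rcases lt_or_eq_of_le (Int.floor_le (v i / r - off D j)) with h | h
  · exact h
  · exact absurd ⟨_, h.symm⟩ (hj i)

/-- Compact sets of vectors with at most `D` nonzero coordinates have dimension at most `D`. -/
lemma covDimLE_sparse (D : ℕ) (K : Set (ι → ℝ)) (hK : IsCompact K)
    (hD : ∀ v ∈ K, (Finset.univ.filter (fun i => v i ≠ 0)).card ≤ D) : CovDimLE K D := by
  classical
  intro W hWf hWo hWc
  have : CompactSpace K := isCompact_iff_compactSpace.mp hK
  -- Lebesgue number
  obtain ⟨δ, hδ, hleb⟩ := lebesgue_number_lemma_of_metric_sUnion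
    (isCompact_univ : IsCompact (Set.univ : Set K)) hWo hWc.ge
  set r : ℝ := δ / 2 with hr
  have hr0 : 0 < r := by positivity
  let U : Fin (D + 1) × (ι → ℤ) → Set K := fun p => Subtype.val ⁻¹' (Cell D r p.1 p.2)
  have hUo : ∀ p, IsOpen (U p) := fun p => (cell_open D r p.1 p.2).preimage continuous_subtype_val
  have hUc : (Set.univ : Set K) ⊆ ⋃ p, U p := by
    intro v _
    obtain ⟨j, k, h⟩ := exists_cell D r v.1 (hD v.1 v.2)
    exact Set.mem_iUnion.mpr ⟨(j, k), h⟩
  obtain ⟨t, ht⟩ := isCompact_univ.elim_finite_subcover U hUo hUc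
  refine ⟨{B | ∃ p ∈ t, (U p).Nonempty ∧ B = U p}, ?_, ?_, ?_, ?_, ?_⟩
  · apply (t.finite_toSet.image U).subset
    rintro B ⟨p, hp, -, rfl⟩
    exact ⟨p, hp, rfl⟩
  · rintro B ⟨p, -, -, rfl⟩
    exact hUo p
  · apply Set.eq_univ_of_univ_subset
    intro v hv
    obtain ⟨p, hp⟩ := Set.mem_iUnion.mp (ht hv)
    obtain ⟨hp1, hp2⟩ := Set.mem_iUnion.mp hp
    exact ⟨U p, ⟨p, hp1, ⟨v, hp2⟩, rfl⟩, hp2⟩
  · rintro B ⟨p, -, ⟨v, hv⟩, rfl⟩
    obtain ⟨A, hA, hAb⟩ := hleb v (Set.mem_univ _)
    refine ⟨A, hA, ?_⟩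
    intro w hw
    apply hAb
    rw [Metric.mem_ball]
    have : dist (w : ι → ℝ) v ≤ r := cell_diam D hr0 p.1 hw hv
    calc dist w v = dist (w : ι → ℝ) v := rfl
      _ ≤ r := this
      _ < δ := by rw [hr]; linarith
  · intro v
    have hsub : {B | B ∈ {B | ∃ p ∈ t, (U p).Nonempty ∧ B = U p} ∧ v ∈ B} ⊆
        (fun j : Fin (D + 1) => if h : ∃ k, v ∈ U (j, k) then U (j, h.choose) else ∅) ''
          (Set.univ : Set (Fin (D + 1))) := by
      rintro B ⟨⟨p, -, -, rfl⟩, hv⟩
      refine ⟨p.1, Set.mem_univ _, ?_⟩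
      have hex : ∃ k, v ∈ U (p.1, k) := ⟨p.2, hv⟩
      simp only [hex, dite_true]
      have : hex.choose = p.2 := cell_unique D r p.1 hex.choose_spec hv
      rw [this]
    calc {B | B ∈ {B | ∃ p ∈ t, (U p).Nonempty ∧ B = U p} ∧ v ∈ B}.encard
        ≤ _ := Set.encard_le_encard hsub
      _ ≤ (Set.univ : Set (Fin (D + 1))).encard := Set.encard_image_le _ _
      _ = (D : ℕ∞) + 1 := by
          rw [Set.encard_univ, ENat.card_eq_coe_fintype_card, Fintype.card_fin]
          push_cast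
          rfl

lemma covDim_le {P : Type*} [TopologicalSpace P] {n : ℕ} (h : CovDimLE P n) :
    covDim P ≤ ((n : ℕ) : EReal) := by
  unfold covDim
  split_ifs
  · exact bot_le
  · exact iInf₂_le n h

lemma covDimLE_of_lt_top {P : Type*} [TopologicalSpace P] (h : covDim P < ⊤) :
    ∃ n, CovDimLE P n := by
  unfold covDim at h
  split_ifs at h with he
  · refine ⟨0, ?_⟩
    intro W _ _ _
    refine ⟨∅, Set.finite_empty, by simp, ?_, by simp, fun x => (he.false x).elim⟩
    rw [Set.sUnion_empty]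
    exact (Set.univ_eq_empty_iff.mpr he).symm
  · by_contra hcon
    push Not at hcon
    have : (⨅ n ∈ {n : ℕ | CovDimLE P n}, ((n : ℕ) : EReal)) = ⊤ := by
      simp only [Set.mem_ofPred_eq, iInf_eq_top]
      intro n hn
      exact absurd hn (hcon n)
    rw [this] at h
    exact lt_irrefl _ h

end Pool.Agent.Lib.MP_8bee83_an
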