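import Pool.Agent.Lib.MP_8bee83_an.Cover
import Pool.Agent.Lib.MP_8bee83_an.Comb

set_option autoImplicit false

open Filter Topology

namespace Pool.Agent.Lib.MP_8bee83_an

variable {X : Type*} [MetricSpace X] [CompactSpace X] {G : Type*} [Group G] [MulAction G X]
  [ContinuousConstSMul G X]

omit [CompactSpace X] [ContinuousConstSMul G X] in
lemma sum_le_of_mem {F : Finset G} {δ : ℝ} {d : ℕ} {σ : G → Equiv.Perm (Fin d)} {φ : Fin d → X}
    (h : φ ∈ MapSet X F δ σ) {f : G} (hf : f ∈ F) :
    ∑ s, dist (φ (σ f s)) (f • φ s) ^ 2 ≤ d * δ ^ 2 := by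
  have h1 := h f hf
  unfold rho2 at h1
  rcases Nat.eq_zero_or_pos d with hd | hd
  · subst hd
    simp
  · have hd' : (0 : ℝ) < d := by exact_mod_cast hd
    have hδ : 0 ≤ δ := (Real.sqrt_nonneg _).trans h1
    rw [Real.sqrt_le_left hδ, one_div, inv_mul_le_iff₀ hd'] at h1
    exact h1

omit [CompactSpace X] in
lemma mapSet_closed (F : Finset G) (δ : ℝ) {d : ℕ} (σ : G → Equiv.Perm (Fin d)) :
    IsClosed (MapSet X F δ σ) := by
  have : MapSet X F δ σ = ⋂ s ∈ F, {φ : Fin d → X |
      rho2 (fun l => φ (σ s l)) (fun l => s • φ l) ≤ δ} := by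
    ext φ; simp [MapSet]
  rw [this]
  apply isClosed_biInter
  intro s _
  apply isClosed_le _ continuous_const
  unfold rho2
  apply Continuous.sqrt
  apply continuous_const.mul
  apply continuous_finsetSum
  intro l _
  exact ((continuous_apply _).dist ((continuous_apply l).const_smul s)).pow 2

lemma widim_le {d : ℕ} (σ : G → Equiv.Perm (Fin d)) (F : Finset G) (S : Finset (Fin d))
    {n N b : ℕ} (t : Fin N → X → ℝ) (ht : ∀ v, Continuous (t v))
    (hcard : ∀ x, (Finset.univ.filter (fun v => t v x ≠ 0)).card ≤ n + 1) {ε δ : ℝ} (hε : 0 < ε)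
    (hsep1 : ∀ x y, (∀ v, t v x = t v y) → dist x y < ε / 2)
    (hsep : ∀ x y, (∀ v, t v x = t v y) → ∀ f ∈ F, dist (f • x) (f • y) < ε / 2)
    (hb : F.card * (d * δ ^ 2) < (b + 1) * (ε / 4) ^ 2) (U : Finset (Fin d))
    (hU : ∀ l, l ∈ U ↔ ¬ Cov F σ S l) :
    widim (MapSet X F δ σ) ε ≤ (((S.card + U.card) * (n + 1) + b * (n + 2) : ℕ) : EReal) := by
  classical
  have hch : ∀ l, ∃ p : G × Fin d, Cov F σ S l → p.1 ∈ F ∧ p.2 ∈ S ∧ σ p.1 p.2 = l := by
    intro l
    by_cases h : Cov F σ S l
    · obtain ⟨f, hf, s, hs, h'⟩ := h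
      exact ⟨(f, s), fun _ => ⟨hf, hs, h'⟩⟩
    · exact ⟨(1, l), fun h' => absurd h' h⟩
  choose p hp using hch
  let Y := MapSet X F δ σ
  let h : Fin d → (Fin d → X) → ℝ := fun l φ =>
    max (dist (φ l) ((p l).1 • φ (p l).2) - ε / 4) 0
  have hcont : ∀ l, Continuous (h l) := by
    intro l
    apply Continuous.max _ continuous_const
    apply Continuous.sub _ continuous_const
    exact (continuous_apply l).dist ((continuous_apply _).const_smul _)
  let Φ : (Fin d → X) → ((Fin d × Fin N) ⊕ (Fin d × Option (Fin N)) → ℝ) := fun φ i =>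
    match i with
    | Sum.inl (l, v) => if l ∈ S ∨ ¬ Cov F σ S l then t v (φ l) else 0
    | Sum.inr (l, none) => if Cov F σ S l then h l φ else 0
    | Sum.inr (l, some v) => if Cov F σ S l then h l φ * t v (φ l) else 0
  have hΦ : Continuous Φ := by
    apply continuous_pi
    rintro (⟨l, v⟩ | ⟨l, _ | v⟩)
    · by_cases hc : l ∈ S ∨ ¬ Cov F σ S l
      · simp only [Φ, hc, if_true]
        exact (ht v).comp (continuous_apply l)
      · simp only [Φ, hc, if_false]
        exact continuous_const
    · by_cases hc : Cov F σ S l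
      · simp only [Φ, hc, if_true]
        exact hcont l
      · simp only [Φ, hc, if_false]
        exact continuous_const
    · by_cases hc : Cov F σ S l
      · simp only [Φ, hc, if_true]
        exact (hcont l).mul ((ht v).comp (continuous_apply l))
      · simp only [Φ, hc, if_false]
        exact continuous_const
  -- few coordinates do not vanish
  have hfew : ∀ φ ∈ Y, (Finset.univ.filter (fun i => Φ φ i ≠ 0)).card ≤
      (S.card + U.card) * (n + 1) + b * (n + 2) := by
    intro φ hφ
    set B : Finset (Fin d) := Finset.univ.filter (fun l => Cov F σ S l ∧ h l φ ≠ 0) with hB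
    have hBcard : B.card ≤ b := by
      have hlow : ∀ l ∈ B, (ε / 4) ^ 2 ≤ dist (φ (σ (p l).1 (p l).2)) ((p l).1 • φ (p l).2) ^ 2 := by
        intro l hl
        rw [hB, Finset.mem_filter] at hl
        obtain ⟨-, hc, hne⟩ := hl
        have h3 := (hp l hc).2.2
        rw [h3]
        have h4 : ε / 4 ≤ dist (φ l) ((p l).1 • φ (p l).2) := by
          by_contra hlt
          apply hne
          simp only [h]
          apply max_eq_right
          linarith
        exact pow_le_pow_left₀ (by positivity) h4 2
      have hinj : Set.InjOn p B := by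
        intro l hl l' hl' heq
        rw [hB, Finset.coe_filter] at hl hl'
        have h1 := (hp l hl.2.1).2.2
        have h2 := (hp l' hl'.2.1).2.2
        rw [← h1, ← h2, heq]
      have hsum : ∑ l ∈ B, dist (φ (σ (p l).1 (p l).2)) ((p l).1 • φ (p l).2) ^ 2 ≤
          F.card * (d * δ ^ 2) := by
        calc ∑ l ∈ B, dist (φ (σ (p l).1 (p l).2)) ((p l).1 • φ (p l).2) ^ 2
            = ∑ q ∈ B.image p, dist (φ (σ q.1 q.2)) (q.1 • φ q.2) ^ 2 :=
              (Finset.sum_image (f := fun q : G × Fin d => dist (φ (σ q.1 q.2)) (q.1 • φ q.2) ^ 2)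
                hinj).symm
          _ ≤ ∑ q ∈ F ×ˢ (Finset.univ : Finset (Fin d)),
              dist (φ (σ q.1 q.2)) (q.1 • φ q.2) ^ 2 := by
              apply Finset.sum_le_sum_of_subset_of_nonneg
              · intro q hq
                obtain ⟨l, hl, rfl⟩ := Finset.mem_image.mp hq
                rw [hB, Finset.mem_filter] at hl
                exact Finset.mem_product.mpr ⟨(hp l hl.2.1).1, Finset.mem_univ _⟩
              · intro _ _ _; positivity
          _ = ∑ f ∈ F, ∑ s, dist (φ (σ f s)) (f • φ s) ^ 2 := Finset.sum_product _ _ _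
          _ ≤ ∑ _f ∈ F, (d * δ ^ 2 : ℝ) :=
              Finset.sum_le_sum (fun f hf => sum_le_of_mem hφ hf)
          _ = F.card * (d * δ ^ 2) := by rw [Finset.sum_const, nsmul_eq_mul]
      have hsum2 : (B.card : ℝ) * (ε / 4) ^ 2 ≤
          ∑ l ∈ B, dist (φ (σ (p l).1 (p l).2)) ((p l).1 • φ (p l).2) ^ 2 := by
        calc (B.card : ℝ) * (ε / 4) ^ 2 = ∑ _l ∈ B, (ε / 4) ^ 2 := by
              rw [Finset.sum_const, nsmul_eq_mul]
          _ ≤ _ := Finset.sum_le_sum hlow
      have h5 : (B.card : ℝ) * (ε / 4) ^ 2 < (b + 1) * (ε / 4) ^ 2 :=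
        (hsum2.trans hsum).trans_lt hb
      have h6 : (B.card : ℝ) < b + 1 := lt_of_mul_lt_mul_right h5 (by positivity)
      have h7 : B.card < b + 1 := by exact_mod_cast h6
      omega
    let T : Fin d → Finset (Fin N) := fun l => Finset.univ.filter (fun v => t v (φ l) ≠ 0)
    have hsub : Finset.univ.filter (fun i => Φ φ i ≠ 0) ⊆
        ((S ∪ U).biUnion (fun l => (T l).image
          (fun v => (Sum.inl (l, v) : (Fin d × Fin N) ⊕ (Fin d × Option (Fin N)))))) ∪
        (B.biUnion (fun l => insert (Sum.inr (l, none)) ((T l).image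
          (fun v => (Sum.inr (l, some v) : (Fin d × Fin N) ⊕ (Fin d × Option (Fin N))))))) := by
      intro i hi
      rw [Finset.mem_filter] at hi
      have hne := hi.2
      rw [Finset.mem_union]
      rcases i with ⟨l, v⟩ | ⟨l, _ | v⟩
      · left
        by_cases hc : l ∈ S ∨ ¬ Cov F σ S l
        · simp only [Φ, hc, if_true] at hne
          rw [Finset.mem_biUnion]
          refine ⟨l, ?_, Finset.mem_image.mpr ⟨v, Finset.mem_filter.mpr ⟨Finset.mem_univ _, hne⟩,
            rfl⟩⟩
          rw [Finset.mem_union, hU]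
          exact hc
        · simp only [Φ, hc, if_false] at hne
          exact absurd rfl hne
      · right
        by_cases hc : Cov F σ S l
        · simp only [Φ, hc, if_true] at hne
          rw [Finset.mem_biUnion]
          refine ⟨l, ?_, Finset.mem_insert_self _ _⟩
          rw [hB, Finset.mem_filter]
          exact ⟨Finset.mem_univ _, hc, hne⟩
        · simp only [Φ, hc, if_false] at hne
          exact absurd rfl hne
      · right
        by_cases hc : Cov F σ S l
        · simp only [Φ, hc, if_true] at hne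
          rw [Finset.mem_biUnion]
          refine ⟨l, ?_, Finset.mem_insert_of_mem (Finset.mem_image.mpr
            ⟨v, Finset.mem_filter.mpr ⟨Finset.mem_univ _, right_ne_zero_of_mul hne⟩, rfl⟩)⟩
          rw [hB, Finset.mem_filter]
          exact ⟨Finset.mem_univ _, hc, left_ne_zero_of_mul hne⟩
        · simp only [Φ, hc, if_false] at hne
          exact absurd rfl hne
    refine (Finset.card_le_card hsub).trans ((Finset.card_union_le _ _).trans ?_)
    apply Nat.add_le_add
    · refine (Finset.card_biUnion_le_card_mul _ _ (n + 1) ?_).trans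
        (Nat.mul_le_mul_right _ (Finset.card_union_le _ _))
      intro l _
      exact Finset.card_image_le.trans (hcard (φ l))
    · refine (Finset.card_biUnion_le_card_mul _ _ (n + 2) ?_).trans
        (Nat.mul_le_mul_right _ hBcard)
      intro l _
      refine (Finset.card_insert_le _ _).trans ?_
      exact Nat.add_le_add_right (Finset.card_image_le.trans (hcard (φ l))) 1
  -- separation
  have hinj : ∀ φ φ' : Fin d → X, Φ φ = Φ φ' → dist φ φ' < ε := by
    intro φ φ' heq
    rw [dist_pi_lt_iff hε]
    intro l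
    have hS : ∀ l, (l ∈ S ∨ ¬ Cov F σ S l) → ∀ v, t v (φ l) = t v (φ' l) := by
      intro l hc v
      have := congrFun heq (Sum.inl (l, v))
      simpa only [Φ, hc, if_true] using this
    by_cases hc : Cov F σ S l
    · have h0 : h l φ = h l φ' := by
        have := congrFun heq (Sum.inr (l, none))
        simpa only [Φ, hc, if_true] using this
      by_cases hz : h l φ = 0
      · have hz' : h l φ' = 0 := by rw [← h0, hz]
        have e1 : dist (φ l) ((p l).1 • φ (p l).2) ≤ ε / 4 := by
          have := le_max_left (dist (φ l) ((p l).1 • φ (p l).2) - ε / 4) 0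
          have hz2 : max (dist (φ l) ((p l).1 • φ (p l).2) - ε / 4) 0 = 0 := hz
          linarith
        have e2 : dist (φ' l) ((p l).1 • φ' (p l).2) ≤ ε / 4 := by
          have := le_max_left (dist (φ' l) ((p l).1 • φ' (p l).2) - ε / 4) 0
          have hz2 : max (dist (φ' l) ((p l).1 • φ' (p l).2) - ε / 4) 0 = 0 := hz'
          linarith
        have e3 : dist ((p l).1 • φ (p l).2) ((p l).1 • φ' (p l).2) < ε / 2 :=
          hsep _ _ (hS _ (Or.inl (hp l hc).2.1)) _ (hp l hc).1
        have e4 := dist_triangle4 (φ l) ((p l).1 • φ (p l).2) ((p l).1 • φ' (p l).2) (φ' l)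
        rw [dist_comm (φ' l)] at e2
        linarith
      · have h1 : ∀ v, t v (φ l) = t v (φ' l) := by
          intro v
          have := congrFun heq (Sum.inr (l, some v))
          simp only [Φ, hc, if_true] at this
          rw [← h0] at this
          exact mul_left_cancel₀ hz this
        have := hsep1 _ _ h1
        linarith
    · have := hsep1 _ _ (hS l (Or.inr hc))
      linarith
  -- conclusion
  have hYc : IsCompact Y := (mapSet_closed F δ σ).isCompact
  have hKc : IsCompact (Φ '' Y) := hYc.image hΦ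
  have hdim : CovDimLE (Φ '' Y) ((S.card + U.card) * (n + 1) + b * (n + 2)) := by
    apply covDimLE_sparse _ _ hKc
    rintro _ ⟨φ, hφ, rfl⟩
    exact hfew φ hφ
  have : CompactSpace (Φ '' Y) := isCompact_iff_compactSpace.mp hKc
  refine le_trans (sInf_le ⟨(Φ '' Y : Set _), inferInstance, this, inferInstance,
    fun y => ⟨Φ y.1, y.1, y.2, rfl⟩, ?_, ?_, rfl⟩) (covDim_le hdim)
  · exact (hΦ.comp continuous_subtype_val).subtype_mk _
  · intro y y' hyy
    exact hinj y.1 y'.1 (congrArg Subtype.val hyy)

end Pool.Agent.Lib.MP_8bee83_an
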