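import Pool.Agent.Lib.MP_8bee83_an.Embed

set_option autoImplicit false

open Filter Topology

namespace Pool.Agent.Lib.MP_8bee83_an

theorem mdim_nonpos {G : Type*} [Group G] [Infinite G] (Sa : SoficApprox G) {X : Type*}
    [MetricSpace X] [CompactSpace X] [MulAction G X] [ContinuousConstSMul G X]
    (hX : covDim X < ⊤) : mdim Sa X ≤ 0 := by
  classical
  obtain ⟨n, hn⟩ := covDimLE_of_lt_top hX
  unfold mdim
  apply iSup₂_le
  intro ε hε
  by_contra hcon
  rw [not_le] at hcon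
  obtain ⟨η, hη0, hη⟩ := EReal.lt_iff_exists_real_btwn.mp hcon
  have hη0' : 0 < η := by exact_mod_cast hη0
  set β : ℝ := η / (4 * n + 5) with hβ
  have hβ0 : 0 < β := by positivity
  obtain ⟨F, hF⟩ := Infinite.exists_subset_card_eq G (⌈1 / β ^ 2⌉₊)
  have hF1 : 1 ≤ β ^ 2 * F.card := by
    rw [hF]
    have := Nat.le_ceil (1 / β ^ 2)
    rw [div_le_iff₀ (by positivity)] at this
    linarith
  have hFpos : (0 : ℝ) < F.card := by
    by_contra h
    have : (F.card : ℝ) = 0 := le_antisymm (not_lt.mp h) (by positivity)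
    rw [this, mul_zero] at hF1
    linarith
  obtain ⟨N, t, ht, htc, hts⟩ := exists_coord hn (insert 1 F) (show 0 < ε / 2 by positivity)
  set δ : ℝ := (ε / 4) * Real.sqrt (β / F.card) with hδ
  have hδ0 : 0 < δ := by positivity
  have hδ2 : F.card * δ ^ 2 = β * (ε / 4) ^ 2 := by
    rw [hδ, mul_pow, Real.sq_sqrt (by positivity)]
    field_simp
  refine absurd (iInf_le_of_le F (iInf₂_le_of_le δ hδ0 ?_)) (not_le.mpr hη)
  apply limsup_le_of_le
  · isBoundedDefault
  filter_upwards [bad_rare Sa F hβ0, Sa.tendsto_d.eventually_gt_atTop 0] with i hbad hdi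
  have hd : (0 : ℝ) < Sa.d i := by exact_mod_cast hdi
  obtain ⟨S, hS1, hS2⟩ := exists_small F (Sa.σ i) hβ0 hF1
  set b : ℕ := ⌊β * Sa.d i⌋₊ with hb
  have hb1 : (b : ℝ) ≤ β * Sa.d i := Nat.floor_le (by positivity)
  have hb2 : β * Sa.d i < b + 1 := Nat.lt_floor_add_one _
  set U : Finset (Fin (Sa.d i)) := Finset.univ.filter (fun l => ¬ Cov F (Sa.σ i) S l) with hU
  have hw := widim_le (X := X) (n := n) (b := b) (δ := δ) (Sa.σ i) F S t ht htc hε
    (by
      intro x y hxy
      have := hts x y hxy 1 (Finset.mem_insert_self _ _)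
      simpa using this)
    (fun x y hxy f hf => hts x y hxy f (Finset.mem_insert_of_mem hf))
    (by
      calc (F.card : ℝ) * (Sa.d i * δ ^ 2) = Sa.d i * (F.card * δ ^ 2) := by ring
        _ = (β * Sa.d i) * (ε / 4) ^ 2 := by rw [hδ2]; ring
        _ < (b + 1) * (ε / 4) ^ 2 := mul_lt_mul_of_pos_right hb2 (by positivity))
    U (by intro l; rw [hU, Finset.mem_filter]; simp)
  have hreal : (((S.card + U.card) * (n + 1) + b * (n + 2) : ℕ) : ℝ) ≤ η * Sa.d i := by
    push_cast
    have h1 : (S.card : ℝ) + U.card ≤ 3 * (β * Sa.d i) := by linarith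
    have h2 : ((S.card : ℝ) + U.card) * (n + 1) ≤ 3 * (β * Sa.d i) * (n + 1) :=
      mul_le_mul_of_nonneg_right h1 (by positivity)
    have h3 : (b : ℝ) * (n + 2) ≤ (β * Sa.d i) * (n + 2) :=
      mul_le_mul_of_nonneg_right hb1 (by positivity)
    have h4 : η = β * (4 * n + 5) := by rw [hβ]; field_simp
    rw [h4]
    nlinarith
  have hdE : (0 : EReal) ≤ ((Sa.d i : ℕ) : EReal) := by positivity
  calc widim (MapSet X F δ (Sa.σ i)) ε / ((Sa.d i : ℕ) : EReal)
      ≤ (((S.card + U.card) * (n + 1) + b * (n + 2) : ℕ) : EReal) / ((Sa.d i : ℕ) : EReal) :=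
        EReal.div_le_div_right_of_nonneg hdE hw
    _ = (((((S.card + U.card) * (n + 1) + b * (n + 2) : ℕ) : ℝ) / (Sa.d i : ℝ) : ℝ) : EReal) := by
        rw [EReal.coe_div]
        rfl
    _ ≤ (η : EReal) := by
        rw [EReal.coe_le_coe_iff, div_le_iff₀ hd]
        exact hreal

end Pool.Agent.Lib.MP_8bee83_an
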